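import Pool.Agent.Run7.h641.HP.Main

/-!
# The height pairings of all powers of a variety: nondegenerate for all powers, or very degenerate

Let `X` be a smooth projective variety over `ℚ` whose powers `X ^ n` satisfy (H2), so that the height
pairings of Beilinson are defined on the spaces `V^p(X ^ n) = CH^p(X ^ n)^0 ⊗ ℚ`. Suppose that `X`
satisfies the sign conjecture `C⁺` (known for curves, surfaces, abelian varieties, complete
intersections, and products of such varieties). Let `b` be the sum of the Betti numbers of `X`. Write

* `V(n)` for the sum of all `V^p(X ^ n)`, and `⟨ , ⟩` for the sum of the height pairings
  `V^p × V^(dim + 1 - p) → ℝ`, a bilinear form on `V(n)`; it is nondegenerate if and only if part (ii)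
  of the conjecture holds for `X ^ n` and all odd `i`,
* `ker(n)` for the kernel and `rk(n)` for the rank of this form (the dimension over `ℚ` of
  `V(n) / ker(n)`),
* `ρ(n)` for the rank of the group of all cycles on `X ^ n` modulo numerical equivalence.

Theorem.

1. (Law.) For `n → ∞` the quotients of `dim V(n)`, `dim ker(n)`, `rk(n)` and `ρ(n)` converge to
   elements `Nch`, `Nker`, `Nrk` of `{0, 1, 2, …, ∞}`, and `Nch = Nker + Nrk`. We have `Nker = 0` if and
   only if the height pairings are nondegenerate for ALL powers of `X` (part (ii) for all `X ^ n` and
   all `i`), and `Nrk = 0` if and only if they are zero for ALL powers.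
2. (Gap.) If the height pairing is degenerate (not zero) for one power `X ^ m`, then for ALL `n` with
   `2 n ≥ 128 (m + 1) ^ 2 b ^ (2 m + 6)` the dimension of its kernel (its rank) on `X ^ (2 n)` is at least
   `ρ(2 n) / 2` and at least `b ^ (2 n) / (2 (n + 1) ^ (b ^ 2))`. So a single inequality
   `dim ker(2 n) < ρ(2 n) / 2` for one explicit large power implies part (ii) for `X ^ m` and all `i`.
3. (Small kernels.) If `Nker = k` is finite, that is, if `dim ker(n) ≤ c ρ(n)` for infinitely many `n`
   and some constant `c`, then the compositions of `k` numerically trivial correspondences between
   powers of `X` kill the kernels, and the kernels of ALL powers are generated, under the action of the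
   correspondences, by at most `k` cycles on one power of `X`.
4. (Small rank.) If `Nrk = k` is finite, then `⟨f_* y, z⟩ = 0` for all compositions `f` of `k`
   numerically trivial correspondences between powers of `X`.
5. (Finiteness.) If `Nch = k` is finite, then all homologically trivial cycles on ALL powers of `X` are
   generated, under the action of the correspondences, by at most `k` of them on one power, and each
   composition of `k + 1` homologically trivial correspondences between powers of `X` is zero.

The setting. `C` is the category of the powers of `X` with the groups `CH^*(Y × Z) ⊗ ℚ` (all
codimensions) as morphisms, a rigid symmetric monoidal category, `T = h(X)` is self-dual,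
`tp T n = h(X ^ n)`, `Λ = ℚ`, `E = ℝ`, `R` is the cohomology of the varieties over an algebraically
closed field of coefficients, `I` is the ideal of the homologically trivial correspondences
(`TrivialIdeal`, in `Pool/Agent/Run7/h184/AJ/Defs.lean`, by helper184). The structure `HeightPairing` (in
`Pool/Agent/Run7/h641/HP/Defs.lean`) records the two properties of the height pairings which are used:
they are symmetric, and the transposed correspondence is the adjoint of the correspondence
(projection formula; Beilinson). So the theorem holds for other pairings with these properties too,
and with the kernels and ranks of such pairings over other fields (the p-adic heights).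

Proof. By the projection formula, the kernels of the height pairings form a subfunctor of the functor of
the homologically trivial cycles. The law of the dimensions of the values of additive functors on the
powers of `X`, and the structure theorem for them (`N64/AF` in the starting tree), are applied to this
subfunctor and to the quotient.
-/

set_option autoImplicit false

open CategoryTheory MonoidalCategory
open Pool.Agent.Y112.SR Pool.Agent.Y112.KD Pool.Agent.N64.AF Pool.Agent.Run7.h184.AJ
open Pool.Agent.Run7.h641.HP

namespace Pool.Agent.Results.MP_29b22a_nt.HeightsOfPowers

universe v u w t x

/-- The height pairings of all powers of a variety: the law of the dimensions of the kernels and of the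
ranks, the gap, and the consequences of small kernels, small ranks and small groups of cycles. -/
theorem result {C : Type u} [Category.{v} C] [Preadditive C] [MonoidalCategory C]
    [MonoidalPreadditive C] [SymmetricCategory C] [RightRigidCategory C]
    {Λ : Type t} [Field Λ] [CharZero Λ] [Linear Λ C] [MonoidalLinear Λ C]
    {K : Type w} [Field K] [IsAlgClosed K] [Algebra Λ K] {R : SuperRealisation C K}
    {I : TrivialIdeal Λ R} {E : Type x} [AddCommGroup E] [Module Λ E] (H : HeightPairing I E)
    (T : C) [ExactPairing T T] (h : IsPow Λ R T) :
    (∃ Nch Nker Nrk : ℕ∞, H.Limits T Nch Nker Nrk ∧ Nch = Nker + Nrk ∧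
      (Nker = 0 ↔ ∀ n, H.Nondeg (tp T n)) ∧ (Nrk = 0 ↔ ∀ n, H.Zero (tp T n)) ∧
      H.Small T Nch Nker Nrk) ∧ H.Gap T :=
  H.main h

end Pool.Agent.Results.MP_29b22a_nt.HeightsOfPowers
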