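import Mathlib
import Pool.Agent.Run7.h89.TL.Fin

/-!
# The Tate conjecture in small codimensions for products of abelian varieties and arbitrary varieties
over finite fields, in terms of the angle rank

Let `π i`, `i ∈ ι`, be finitely many Weil numbers for `q = p ^ a` in CM fields `F i` of degree `2 g i`.
Nothing is assumed about the Galois groups and the slopes. For a set `J` of indices let `g_J` be the sum
of the `g i`, `i ∈ J`, and `ρ_J` the rank of the multiplicative group generated by the conjugates of the
numbers `π i ^ 2 / q`, `i ∈ J` (the angle rank). The defect `g_J - ρ_J` is the number of independent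
exceptional multiplicative relations between these numbers. Suppose that
`2 r (g_J - ρ_J) < g_J` for all nonempty `J`.

Let `A` be an abelian variety over the field with `q` elements whose Frobenius eigenvalues are conjugates
of the numbers `π i` (with any multiplicities: for example a product of powers of the abelian varieties
of Honda and Tate with the Weil numbers `π i`), and let `Z` be **any** variety over the field with
`Q = q ^ t` elements such that the eigenvalues `ρ` of Frobenius on its cohomology group
`H = H^w(Z)` are unrelated to the fields `F i` (`UnrelatedTo`): an odd function `n` on the complex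
embeddings of `F i` (`n (conj φ) = - n φ`) which is invariant under all automorphisms of `ℂ` that fix
some positive power of `ρ` is zero. (This is so if a power of `ρ` is in a totally real field, or in a
normal extension of `ℚ` whose intersection with `F i` is totally real: for example for products of
elliptic curves with complex multiplication by imaginary quadratic fields such that no `F i` contains
an imaginary quadratic subfield of their compositum, for supersingular varieties, and so on.)

Theorem (`TateFormulaUpTo`): for `n ≤ 2 r`, `n + w = 2 c`, **every class in
`H^n(A) ⊗ H^w(Z) ⊆ H^{2c}(A × Z)` on which the Frobenius of an extension of degree `N` acts as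
multiplication by `Q ^ (c N)` is a linear combination of products of `n / 2` classes of divisors on `A`
and of a Tate class in `H^w(Z)`** (in particular `n` and `w` are even, or it is zero). The classes of
divisors are the elements of `⋀ ^ 2 H^1(A)` on which the Frobenius of some extension acts as
multiplication by the number of elements of the field (Tate 1966). Hence, for smooth projective `Z`
all of whose cohomology is as above, the Tate conjecture for `A × Z` in codimension `c ≤ r` is true if
it is true for `Z` in the codimensions at most `c`; for `Z` a point it is true for `A` in codimension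
at most `r`. The cohomology has complex coefficients (`ℚ_ℓ` embedded in `ℂ`); `V = H^1(A)` with the
Frobenius endomorphism `Fr`.

For a simple abelian variety of dimension `g` with defect `d` these are the codimensions
`r < g / (2 d)`. For `d = 1` this is sharp: the exotic classes appear in codimension `g / 2`.
-/

set_option autoImplicit false

namespace Pool.Agent.Results.MP_950c68_ag.RankDefectTimesVarieties

open NumberField Module Pool.Agent.Y1.CT Run7.h89.TL

/-- **Tate classes of small codimension on the product of an abelian variety and an unrelated variety
over a finite field.** -/
theorem result {p : ℕ} [Fact p.Prime] {a : ℕ} (ha : 0 < a) {ι : Type} [Fintype ι]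
    {F : ι → Type} [∀ i, Field (F i)] [∀ i, NumberField (F i)] [∀ i, IsCMField (F i)]
    {g : ι → ℕ} (hg : ∀ i, finrank ℚ (F i) = 2 * g i) {π : ∀ i, F i}
    (hweil : ∀ i, π i * IsCMField.complexConj (F i) (π i) = (p : F i) ^ a)
    {r : ℕ} (hr : ∀ J : Finset ι, J.Nonempty →
      2 * r * (∑ i ∈ J, g i - angleRank ((p : ℝ) ^ a) (fun i : J => π i)) < ∑ i ∈ J, g i)
    {V : Type} [AddCommGroup V] [Module ℂ V] [FiniteDimensional ℂ V] (Fr : V →ₗ[ℂ] V)
    (hFr : Submodule.span ℂ {v : V | ∃ i, ∃ σ : F i →+* ℂ, Fr v = σ (π i) • v} = ⊤)
    {t : ℕ} (ht : 0 < t) {H : Type} [AddCommGroup H] [Module ℂ H] [FiniteDimensional ℂ H]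
    (G : H →ₗ[ℂ] H) (w : ℕ) (hG : ∀ ρ, Module.End.HasEigenvalue G ρ → ∀ i, UnrelatedTo (F i) ρ) :
    TateFormulaUpTo (2 * r) (((p : ℂ) ^ a) ^ t) (Fr ^ t) G w :=
  finite_low ha hg hweil hr Fr hFr ht G w hG

end Pool.Agent.Results.MP_950c68_ag.RankDefectTimesVarieties
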