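import Pool.Agent.Run7.h843.Q5
import Pool.Agent.Run7.h843.V3
import Pool.Agent.Run7.h135.Q4D
import Pool.Agent.Y687.Main

/-!
# Beilinson's conjecture at `i = m = 1` for the quartic twists `y² = x³ + (u² + v²) x`

Let `N = u² + v²` with `u`, `v` odd integers and `N` squarefree, and let `X` be the elliptic curve
`y² = x³ + N x` over `ℚ`, with `CH¹(X)⁰ = X(ℚ)`. With no hypothesis on the rank or on the
Tate-Shafarevich group `Ш` the following are equivalent:

* `X(ℚ)` is finite and the `2`-primary part of `Ш(X/ℚ)` is zero;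
* `N` satisfies the elementary `Criterion N`: if `2 d e = N`, `2 e` is a square modulo each prime
  divisor of `d` and `d` is a square modulo each prime divisor of `e`, then `d = 1`.

In this case (`BothZero`) the Euler product of `X` is equal to an entire function `L` for `Re s > 3/2`
(the condition (H1)), `L(1) ≠ 0`, and `X(ℚ)` is finite. So `V¹ = CH¹(X)⁰ ⊗ ℚ = 0`: the parts (i), (ii) and
(iii) of the conjecture hold for `X` and `i = m = 1`, `ord_{s=1} L(X, s) = 0 = dim V¹`. (The reduction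
at the prime divisors of `2 N` is additive, so that the Euler factors at these primes are `1`, and the
incomplete Euler product is the `L`-function.)

Let `c = ∏_{i ≥ 0} (1 - 2^{-(2i+1)}) = 0.4194...`. Among the pairs `(u, v)` of odd integers with
squarefree `u² + v²`, ordered by `u² + v²` (a set of positive density among all pairs), exactly the
proportion `c` satisfies these equivalent conditions.

These curves are quartic twists of `y² = x³ - x`, and no two of them are quadratic twists of each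
other. The proof, joint work of helper135, helper555 and helper843: the descents over `ℚ` for
`y² = x³ + 2 m x` and its 2-isogenous curve, in both directions (`Run7/h843/Q1` to `Q4`, `S1` to `S6`, `V1`
to `V3`); the central value as a combination of values of an elliptic function of level `(1 + i)⁶` at
division points, and its leading term at a prime above two (`Run7/h135/Q4A`, `Q4B`, `Q4L1` to `Q4L3`,
`Run7/h555/Q4`); the weighted count of the pairs by means of a matrix over `𝔽₂`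
(`Run7/h843/K1`, `K2`, `Q5`, on the base of `Run7/h843/C1` to `C9` and `Run7/h238`). This file
(helper89) brings it in the form of the present problem.
-/

set_option autoImplicit false

open Filter Topology

namespace Pool.Agent.Results.MP_29b22a_nt.QuarticTwistsTwoSquares

/-- `f` is an entire function which equals the Euler product of `y² = x³ + A x + B` over the primes
`p ∤ 2 (4 A³ + 27 B²)` on `Re s > 3 / 2` -/
def IsL (A B : ℤ) (f : ℂ → ℂ) : Prop :=
  Differentiable ℂ f ∧ ∀ s : ℂ, (3 : ℝ) / 2 < s.re →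
    HasProd
      (fun p : {p : ℕ // p.Prime ∧ ¬ ((p : ℤ) ∣ 2 * (4 * A ^ 3 + 27 * B ^ 2))} =>
        ((1 : ℂ)
          - ((((p.1 : ℤ) - (Nat.card {q : ZMod p.1 × ZMod p.1 //
                q.2 ^ 2 = q.1 ^ 3 + (A : ZMod p.1) * q.1 + (B : ZMod p.1)} : ℤ)) : ℤ) : ℂ)
              * ((p.1 : ℂ) ^ (-s))
          + (p.1 : ℂ) ^ (1 - 2 * s))⁻¹)
      (f s)

/-- `ord_{s=1} L = 0 = dim V¹` for `X : y² = x³ + A x + B`: the curve is nonsingular, the entire
`L`-function exists, it is not zero at `1`, and there are finitely many rational points -/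
def BothZero (A B : ℤ) : Prop :=
  4 * A ^ 3 + 27 * B ^ 2 ≠ 0 ∧ (∃ f : ℂ → ℂ, IsL A B f) ∧ (∀ f : ℂ → ℂ, IsL A B f → f 1 ≠ 0) ∧
    {q : ℚ × ℚ | q.2 ^ 2 = q.1 ^ 3 + (A : ℚ) * q.1 + (B : ℚ)}.Finite

/-- the curve `y² = x³ + N x` over `ℚ` -/
def E (N : ℕ) : WeierstrassCurve ℚ := { a₁ := 0, a₂ := 0, a₃ := 0, a₄ := (N : ℚ), a₆ := 0 }

/-- `E_N(ℚ)` is finite and `Ш(E_N/ℚ)[2^∞] = 0` -/
def TrivialTwo (N : ℕ) : Prop :=
  Finite (E N).toAffine.Point ∧
    ∀ (n : ℕ) (x : Pool.Agent.TH841.NF.D.Sha (E N)), 2 ^ n • x = 0 → x = 0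

/-- The criterion for the squarefree number `N`: if `2 d e = N`, `2 e` is a square modulo each prime
divisor of `d` and `d` is a square modulo each prime divisor of `e`, then `d = 1`. -/
def Criterion (N : ℕ) : Prop := ∀ d e : ℕ, 2 * (d * e) = N →
  (∀ p : ℕ, p.Prime → p ∣ d → IsSquare ((2 * e : ℕ) : ZMod p)) →
  (∀ p : ℕ, p.Prime → p ∣ e → IsSquare ((d : ℕ) : ZMod p)) → d = 1

/-- the number of the pairs `(u, v)` of odd integers with squarefree `u² + v² ≤ X` such that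
`u² + v²` has the property `Q` -/
noncomputable def num (Q : ℕ → Prop) (X : ℕ) : ℕ :=
  Nat.card {v : ℤ × ℤ // Odd v.1 ∧ Odd v.2 ∧ v.1 ^ 2 + v.2 ^ 2 ≤ (X : ℤ) ∧
    Squarefree (v.1 ^ 2 + v.2 ^ 2) ∧ Q (v.1 ^ 2 + v.2 ^ 2).toNat}

/-- the constant `0.4194...` -/
noncomputable def c : ℝ := ∏' i : ℕ, (1 - (1 / 2 : ℝ) ^ (2 * i + 1))

section proof

open Run7.h238.Pairs Run7.h843.Fin Run7.h843.Sqf

/-- the data of a pair -/
theorem pair_data {u v : ℤ} (hu : Odd u) (hv : Odd v) (hs : Squarefree (u ^ 2 + v ^ 2)) :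
    ∃ m : ℕ, (u ^ 2 + v ^ 2).toNat = 2 * m ∧ Squarefree m ∧ (∀ p ∈ m.primeFactors, p % 4 = 1) ∧
      m % 2 = 1 ∧ Squarefree (2 * m) ∧ (Criterion (2 * m) ↔ Run7.h843.Desc.Nsg m) := by
  have hs' := (Run7.h843.T8.sq_iff (u, v)).1 hs
  obtain ⟨w, h2, h3, h3s⟩ := Run7.h843.T8.half_data (v := (u, v)) hu hv hs'
  have h4 := Run7.h843.T8.toNat_eq (u, v)
  simp only at h4
  exact ⟨nm w, by rw [h4, h2], h3s, QX_pf h3 h3s, h3, by rw [← h2]; exact hs',
    Run7.h843.T8.crit_iff h3 h3s⟩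

theorem two_iff {u v : ℤ} (hu : Odd u) (hv : Odd v) (hs : Squarefree (u ^ 2 + v ^ 2)) :
    TrivialTwo (u ^ 2 + v ^ 2).toNat ↔ Criterion (u ^ 2 + v ^ 2).toNat := by
  obtain ⟨m, e, hm, h1, -, -, hc⟩ := pair_data hu hv hs
  rw [e, hc]
  have hW : E (2 * m) = ⟨0, 0, 0, ((2 * (m : ℤ) : ℤ) : ℚ), ((0 : ℤ) : ℚ)⟩ := by
    unfold E
    push_cast
    rfl
  exact Run7.h843.Conv.iffC hm h1 hW

/-- the Euler product over the good primes -/
theorem isL_of {a b : ℤ} {F : ℂ → ℂ} (hd : Differentiable ℂ F)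
    (h : ∀ s : ℂ, (3 : ℝ) / 2 < s.re →
      HasProd
        (fun p : ℕ =>
          open Classical in if p.Prime ∧ ¬ ((p : ℤ) ∣ 2 * (-4 * a ^ 3 - 27 * b ^ 2)) then
            (1 - ((p : ℂ) - (Nat.card {q : ZMod p × ZMod p //
                q.2 ^ 2 = q.1 ^ 3 + (a : ZMod p) * q.1 + (b : ZMod p)} : ℂ))
                * (p : ℂ) ^ (-s) + (p : ℂ) ^ (1 - 2 * s))⁻¹
          else 1)
        (F s)) : IsL a b F := by
  classical
  refine ⟨hd, fun s hs => ?_⟩
  have h1 := h s hs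
  have hset : {p : ℕ | p.Prime ∧ ¬ ((p : ℤ) ∣ 2 * (4 * a ^ 3 + 27 * b ^ 2))} =
      {p : ℕ | p.Prime ∧ ¬ ((p : ℤ) ∣ 2 * (-4 * a ^ 3 - 27 * b ^ 2))} := by
    ext p
    have e : (2 * (-4 * a ^ 3 - 27 * b ^ 2) : ℤ) = -(2 * (4 * a ^ 3 + 27 * b ^ 2)) := by ring
    simp only [Set.mem_setOf_eq, e, dvd_neg]
  have h2 : HasProd (fun p : {p : ℕ | p.Prime ∧ ¬ ((p : ℤ) ∣ 2 * (4 * a ^ 3 + 27 * b ^ 2))} =>
      (1 - (((p : ℕ) : ℂ) - (Nat.card {q : ZMod (p : ℕ) × ZMod (p : ℕ) //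
                q.2 ^ 2 = q.1 ^ 3 + (a : ZMod (p : ℕ)) * q.1 + (b : ZMod (p : ℕ))} : ℂ))
                * ((p : ℕ) : ℂ) ^ (-s) + ((p : ℕ) : ℂ) ^ (1 - 2 * s))⁻¹) (F s) := by
    have h3 := (hasProd_subtype_iff_mulIndicator (f := fun p : ℕ =>
      (1 - ((p : ℂ) - (Nat.card {q : ZMod p × ZMod p //
                q.2 ^ 2 = q.1 ^ 3 + (a : ZMod p) * q.1 + (b : ZMod p)} : ℂ))
                * (p : ℂ) ^ (-s) + (p : ℂ) ^ (1 - 2 * s))⁻¹) (a := F s)
      (s := {p : ℕ | p.Prime ∧ ¬ ((p : ℤ) ∣ 2 * (4 * a ^ 3 + 27 * b ^ 2))})).2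
    refine h3 ?_
    convert h1 using 1
    funext p
    rw [hset, Set.mulIndicator_apply]
    simp only [Set.mem_setOf_eq]
  refine h2.congr_fun fun p => ?_
  push_cast
  rfl

theorem both_of {u v : ℤ} (hu : Odd u) (hv : Odd v) (hs : Squarefree (u ^ 2 + v ^ 2))
    (hc : Criterion (u ^ 2 + v ^ 2).toNat) : BothZero (u ^ 2 + v ^ 2) 0 := by
  obtain ⟨h1, F, hd, hF, hord, -⟩ :=
    (Run7.h843.T8.main Pool.Agent.Run7.h135.Q4L.ana4).1 u v hu hv hs hc
  have hpos : 0 < u ^ 2 + v ^ 2 := by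
    have hu0 : u ≠ 0 := by
      rintro rfl
      exact (by decide : ¬ Odd (0 : ℤ)) hu
    positivity
  have hL := isL_of hd hF
  refine ⟨?_, ⟨F, hL⟩, ?_, ?_⟩
  · have e : (4 * (u ^ 2 + v ^ 2) ^ 3 + 27 * 0 ^ 2 : ℤ) = 4 * (u ^ 2 + v ^ 2) ^ 3 := by ring
    rw [e]
    positivity
  · intro g hg
    rw [Pool.Agent.Y687.unique_f hg.1 hL.1 hg.2 hL.2]
    exact (hd.analyticAt 1).analyticOrderAt_eq_zero.1 hord
  · refine Set.Finite.subset (Set.finite_singleton ((0 : ℚ), (0 : ℚ))) ?_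
    rintro ⟨x, y⟩ hq
    rw [Set.mem_setOf_eq] at hq
    push_cast at hq
    rw [add_zero] at hq
    obtain ⟨hx, hy⟩ := h1 x y hq
    rw [Set.mem_singleton_iff, hx, hy]

end proof

/-- **Beilinson's conjecture at `i = m = 1` for the quartic twists `y² = x³ + (u² + v²) x`.** -/
theorem result :
    (∀ u v : ℤ, Odd u → Odd v → Squarefree (u ^ 2 + v ^ 2) → ∀ N : ℕ, (N : ℤ) = u ^ 2 + v ^ 2 →
      (TrivialTwo N ↔ Criterion N) ∧ (Criterion N → BothZero N 0)) ∧
    Tendsto (fun X : ℕ => (num TrivialTwo X : ℝ) / (num (fun _ => True) X : ℝ)) atTop (𝓝 c) ∧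
    0.4194 < c ∧ c < 0.4195 ∧
    ∃ a : ℝ, 0 < a ∧ ∀ᶠ X : ℕ in atTop, a * X ≤ (num (fun _ => True) X : ℝ) := by
  obtain ⟨-, h2, h3, h4, h5, -⟩ := Run7.h843.T8.main Pool.Agent.Run7.h135.Q4L.ana4
  refine ⟨?_, ?_, h3, h4, h5⟩
  · intro u v hu hv hs N hN
    have e : (u ^ 2 + v ^ 2).toNat = N := by
      rw [← hN]
      exact Int.toNat_natCast N
    have h6 := two_iff hu hv hs
    have h7 := both_of hu hv hs
    rw [e] at h6 h7
    rw [← hN] at h7
    exact ⟨h6, h7⟩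
  · refine h2.congr fun X => ?_
    congr 1
    have : num TrivialTwo X = Run7.h843.T8.num Run7.h843.T8.Criterion X := by
      unfold num Run7.h843.T8.num
      refine Nat.card_congr (Equiv.subtypeEquivRight fun v => ?_)
      refine and_congr_right fun hu => and_congr_right fun hv => and_congr_right fun _ =>
        and_congr_right fun hs => ?_
      exact two_iff hu hv hs
    rw [this]

end Pool.Agent.Results.MP_29b22a_nt.QuarticTwistsTwoSquares
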