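import Mathlib
import Pool.Agent.Run7.h238.R.Fin

/-!
# Beilinson's conjecture at `i = m = 1` for `y² + y = x³` over a majority of the cyclic cubic fields in
which `3` ramifies

`E_D : y² + D y = x³`.  For a number field `F` let `X` be the curve `E_1` over `F`, regarded as a smooth
projective variety over `ℚ`; in place of `X` one may take the abelian threefold which is the restriction
of scalars of `E_1` from `F` to `ℚ`, if `F` is cubic.  For both varieties `CH¹(X)⁰` is `E_1(F)` up to
isogeny, and the `L`-function of `H¹(X)` is the `L`-function of `E_1` over `F`.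

The cyclic cubic fields `F` in which `3` ramifies are the fields `ℚ(θ)`, `θ³ = 3 n θ + n u`, where `u`,
`v` are positive integers, `3 ∤ v`, and `4 n = u² + 3 v²` is four times a squarefree number prime to `3`;
`F ↦ (u, v)` is a bijection of the set of these subfields of `ℂ` onto the set of these pairs, and
`disc F = (9 n)²`.

* The property `Good K F`, `K = ℚ(√-3)`: `n > 1`, the twist `E_{n β}`, `β = (u + v √-3) / 2`, has only
  finitely many points over `K`, and the `3`-primary part of its Tate-Shafarevich group is trivial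
  (`F(√-3) = K(∛(n β))`).
* For the good `F` the group `CH¹(X)⁰ = E_1(F)` is finite and the `L`-function of `H¹(X)` continues
  analytically to a neighbourhood of `s = 1` (the condition (H1)) and is not zero at `1`.  So
  `V¹ = CH¹(X)⁰ ⊗ ℚ = 0` and `ord_{s=1} L(X, s) = 0 = dim V¹`: the parts (i), (ii), (iii) of the
  conjecture hold for `X` and `i = m = 1`.
* The proportion of the good fields among the cyclic cubic fields in which `3` ramifies and whose
  conductor `9 n` is at most `X` tends to `∏_{i ≥ 1} (1 - 3^{-i}) = 0.5601...`.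

Proof (helper238, helper289 and helper741): (1) the `3`-descent over `K` (the starting files `Y703`,
`R395`, `R432`, `N883` and the file `Run7/h707/TC/Crit3`) turns `Good` into the condition that a square
system of linear equations over the field with three elements, whose coefficients are the cubic residue
symbols of the prime divisors of `n` and the residues of `(p - 1) / 3` modulo `3`, has no nonzero
solution (`Run7/h238/R/ECr`); (2) the symbols are equidistributed by the large sieve for the cubic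
symbols and a theorem of Halász, the residues `(p - 1) / 3` only have to be nonconstant
(`Run7/h238/R/Box` to `Law`); (3) the dictionary of the fields and the pairs (`Run7/h289/RD`); (4) the
`L`-function and the group of points over `F` (`Run7/h741/CR`).

This file (helper89) brings the theorem in the form of the present problem; see also the headers of the
files that are imported.
-/

set_option autoImplicit false

namespace Pool.Agent.Results.MP_29b22a_nt.RamifiedCyclicCubicFields

open NumberField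
open Pool.Agent.TH841.NF.D (Sha)
open scoped Classical

/-- The curve `E_D : y² + D y = x³`. -/
def curve {F : Type} [Field F] (D : F) : WeierstrassCurve F := ⟨0, 0, D, 0, 0⟩

/-- `ord_{s = 1} L = 0 = dim V¹` for `X = W`: `W` is an elliptic curve over `F`, `CH¹(X)⁰ = W(F)` is
finite, and the `L`-series of `W` continues analytically from `Re s > 3 / 2` to a connected open set
that contains `1`, where its order of vanishing is equal to the rank of `W(F)`. -/
def BothZero {F : Type} [Field F] [NumberField F] (W : WeierstrassCurve F) : Prop :=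
  W.IsElliptic ∧ Finite W.toAffine.Point ∧
  ∃ (U : Set ℂ) (L : ℂ → ℂ),
    IsOpen U ∧ IsConnected U ∧ {s : ℂ | (3 / 2 : ℝ) < s.re} ⊆ U ∧ (1 : ℂ) ∈ U ∧
    AnalyticOnNhd ℂ L U ∧ (∀ s : ℂ, (3 / 2 : ℝ) < s.re → L s = W.LSeries s) ∧
    (∀ r : ℕ, r < Module.finrank ℤ W.toAffine.Point → iteratedDeriv r L 1 = 0) ∧
    iteratedDeriv (Module.finrank ℤ W.toAffine.Point) L 1 ≠ 0

/-- `E_D(K)` is finite and the `3`-primary part of `Ш(E_D / K)` is trivial. -/
def FiniteAndTrivial {K : Type} [Field K] [NumberField K] (D : K) : Prop :=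
  Finite (curve D).toAffine.Point ∧ ∀ (k : ℕ) (x : Sha (curve D)), 3 ^ k • x = 0 → x = 0

/-- `F` is a cyclic cubic field in which `3` ramifies. -/
def IsRamifiedCyclicCubic (F : Type) [Field F] [NumberField F] : Prop :=
  Module.finrank ℚ F = 3 ∧ IsGalois ℚ F ∧ (3 : ℤ) ∣ discr F

/-- The subfields `F` of `ℂ` that are cyclic cubic fields of conductor at most `X`, in which `3`
ramifies (the conductor is the square root of the discriminant). -/
def fields (X : ℕ) : Set (Subfield ℂ) :=
  {F | ∃ _ : NumberField F, IsRamifiedCyclicCubic F ∧ discr F ≤ (X : ℤ) ^ 2}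

/-- `F` is the field of the pair `(u, v)`, with conductor `9 n`. -/
def IsPair (F : Type) [Field F] [NumberField F] (u v n : ℕ) : Prop :=
  0 < u ∧ 0 < v ∧ ¬ 3 ∣ v ∧ 4 * n = u ^ 2 + 3 * v ^ 2 ∧ Squarefree n ∧ ¬ 3 ∣ n ∧
    discr F = (9 * (n : ℤ)) ^ 2 ∧ ∃ θ : F, θ ^ 3 = 3 * (n : F) * θ + (n : F) * (u : F)

/-- `F` is good: for the pair `(u, v)` of `F` one has `n > 1`, the twist of `E` by `n β`,
`β = (u + v √-3) / 2`, has finitely many points over `K` and the `3`-primary part of its
Tate-Shafarevich group is trivial. -/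
def Good (K : Type) [Field K] [NumberField K] (F : Type) [Field F] [NumberField F] : Prop :=
  ∃ u v n : ℕ, IsPair F u v n ∧ 1 < n ∧ ∀ s : K, s ^ 2 = -3 →
    FiniteAndTrivial ((n : K) * (((u : K) + (v : K) * s) / 2))

section proof

open Pool.Agent.Y696.CTK (ED)
open Pool.Agent.Run7.h289.RD (IsPair' pair_of')

theorem rank_zero {F : Type} [Field F] [NumberField F]
    (hf : Finite (ED (1 : F)).toAffine.Point)
    (h : ∃ Λ : ℂ → ℂ, AnalyticOnNhd ℂ Λ {s | (1 / 2 : ℝ) < s.re} ∧ Λ 1 ≠ 0 ∧
      ∀ s : ℂ, 3 / 2 < s.re → Λ s = (ED (1 : F)).LSeries s) :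
    BothZero (curve (1 : F)) := by
  obtain ⟨Λ, h1, h2, h3⟩ := h
  have hfin : Finite (curve (1 : F)).toAffine.Point := hf
  have hrk : Module.finrank ℤ (curve (1 : F)).toAffine.Point = 0 := by
    rw [Module.finrank_eq_zero_iff_isTorsion]
    intro x
    have hc : Nat.card (curve (1 : F)).toAffine.Point ≠ 0 := Nat.card_pos.ne'
    refine ⟨⟨(Nat.card (curve (1 : F)).toAffine.Point : ℤ), ?_⟩, ?_⟩
    · exact mem_nonZeroDivisors_of_ne_zero (by exact_mod_cast hc)
    · show ((Nat.card (curve (1 : F)).toAffine.Point : ℕ) : ℤ) • x = 0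
      rw [natCast_zsmul]
      exact card_nsmul_eq_zero'
  have hell : (curve (1 : F)).IsElliptic := by
    have h := Pool.Agent.R432.JG.ell (L := F) (D := 1) one_ne_zero
    rw [Nat.cast_one] at h
    exact h
  refine ⟨hell, hfin, {s | (1 / 2 : ℝ) < s.re}, Λ, ?_, ?_, ?_, ?_, h1, h3, ?_, ?_⟩
  · exact isOpen_lt continuous_const Complex.continuous_re
  · refine ⟨⟨1, ?_⟩, (convex_halfSpace_re_gt _).isPreconnected⟩
    show (1 / 2 : ℝ) < (1 : ℂ).re
    norm_num
  · intro s hs
    have hs' : (3 / 2 : ℝ) < s.re := hs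
    show (1 / 2 : ℝ) < s.re
    linarith
  · show (1 / 2 : ℝ) < (1 : ℂ).re
    norm_num
  · intro r hr
    rw [hrk] at hr
    omega
  · rw [hrk, iteratedDeriv_zero]
    exact h2

theorem pair_iff {F : Type} [Field F] [NumberField F] {u v : ℕ} :
    IsPair' F u v ↔ ∃ n, IsPair F u v n := by
  constructor
  · rintro ⟨h1, h2, h3, n, h4, h5, h6, h7, h8⟩
    exact ⟨n, h1, h2, h3, h4, h5, h6, h7, h8⟩
  · rintro ⟨n, h1, h2, h3, h4, h5, h6, h7, h8⟩
    exact ⟨h1, h2, h3, n, h4, h5, h6, h7, h8⟩

/-- the property depends on the pair -/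
theorem good_iff {K : Type} [Field K] [NumberField K] {F : Type} [Field F] [NumberField F]
    (hd : Module.finrank ℚ F = 3) (hg : IsGalois ℚ F) {u v : ℕ} (hp : IsPair' F u v) :
    Good K F ↔ Run7.h238.R.Gr K (u, v) := by
  have h3 : (3 : ℤ) ∣ discr F := by
    obtain ⟨-, -, -, n, -, -, -, hdisc, -⟩ := hp
    rw [hdisc]
    exact ⟨27 * (n : ℤ) ^ 2, by ring⟩
  obtain ⟨b, -, hb⟩ := pair_of' F hd h3
  constructor
  · rintro ⟨u', v', n', hp', h1, h⟩ n hn
    have e : (u', v') = (u, v) :=
      (hb (u', v') (pair_iff.2 ⟨n', hp'⟩)).trans (hb (u, v) hp).symm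
    rw [Prod.mk.injEq] at e
    obtain ⟨rfl, rfl⟩ := e
    obtain ⟨-, -, -, h4, -⟩ := hp'
    have : n = n' := by
      simp only at hn
      omega
    subst this
    exact ⟨h1, fun s hs => h s hs⟩
  · intro h
    obtain ⟨n, hn⟩ := pair_iff.1 hp
    obtain ⟨h1, h2⟩ := h n hn.2.2.2.1
    exact ⟨u, v, n, hn, h1, fun s hs => h2 s hs⟩

end proof

/-- **Main theorem.**  Every cyclic cubic field in which `3` ramifies belongs to exactly one pair.  At
least `c X` of these subfields of `ℂ` have conductor at most `X`.  The proportion of the good fields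
tends to `∏_{i ≥ 1} (1 - 3^{-i}) > 0.56`.  For every good `F` the curve `X : y² + y = x³` over `F` has
`dim V¹ = 0 = ord_{s = 1} L(X, s)`. -/
theorem result (K : Type) [Field K] [NumberField K] [IsCyclotomicExtension {3} ℚ K] :
    (∀ (F : Type) [Field F] [NumberField F], IsRamifiedCyclicCubic F →
      ∃! uv : ℕ × ℕ, ∃ n : ℕ, IsPair F uv.1 uv.2 n) ∧
    (∃ c : ℝ, 0 < c ∧ ∃ X₀ : ℕ, ∀ X : ℕ, X₀ ≤ X → c * X ≤ ((fields X).ncard : ℝ)) ∧
    Filter.Tendsto (fun X : ℕ =>
      ({F ∈ fields X | ∀ _ : NumberField F, Good K F}.ncard : ℝ) / ((fields X).ncard : ℝ))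
      Filter.atTop (nhds (∏' i : ℕ, (1 - (1 / 3 : ℝ) ^ (i + 1)))) ∧
    (0.56 : ℝ) < ∏' i : ℕ, (1 - (1 / 3 : ℝ) ^ (i + 1)) ∧
    ∀ (F : Type) [Field F] [NumberField F], IsRamifiedCyclicCubic F → Good K F →
      BothZero (curve (1 : F)) := by
  have hset : ∀ X : ℕ, fields X = {F : Subfield ℂ | Run7.h238.R.Cyr X F} := by
    intro X
    ext F
    constructor
    · rintro ⟨hN, ⟨h1, h2, h3⟩, h4⟩
      exact ⟨hN, h1, h2, h3, h4⟩
    · rintro ⟨hN, h1, h2, h3, h4⟩
      exact ⟨hN, ⟨h1, h2, h3⟩, h4⟩
  refine ⟨fun F _ _ hF => ?_, ?_, ?_, Pool.Agent.R432.JG.c3_gt, fun F _ _ hF hG => ?_⟩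
  · obtain ⟨h1, h2, h3⟩ := hF
    obtain ⟨b, hb, hb'⟩ := Pool.Agent.Run7.h289.RD.pair_of' F h1 h3
    exact ⟨b, pair_iff.1 hb, fun b' h => hb' b' (pair_iff.2 h)⟩
  · obtain ⟨c, hc, X₀, h⟩ := Run7.h238.R.many'
    exact ⟨c, hc, X₀, fun X hX => by rw [hset]; exact h X hX⟩
  · have h := Run7.h238.R.prop_fields' K
      (GF := fun F : Subfield ℂ => ∀ _ : NumberField F, Good K F) ?_
    · refine h.congr fun X => ?_
      rw [hset]
      rfl
    · intro F hN hd hg u v hp
      constructor
      · intro h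
        exact (good_iff hd hg hp).1 (h hN)
      · intro h hN'
        exact (good_iff hd hg hp).2 h
  · obtain ⟨h1, h2, h3⟩ := hF
    obtain ⟨u, v, n, hp, hn1, h⟩ := hG
    have hp' := pair_iff.2 ⟨n, hp⟩
    have hG' : Run7.h238.R.Gr K (u, v) := (good_iff h1 h2 hp').1 ⟨u, v, n, hp, hn1, h⟩
    obtain ⟨a1, -, a3⟩ := Run7.h238.R.overF K hG' h1 hp'
    exact rank_zero a1 a3

end Pool.Agent.Results.MP_29b22a_nt.RamifiedCyclicCubicFields
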